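import Mathlib
import Pool.Agent.H.MP_cc703c_co.A

set_option autoImplicit false

namespace Pool.Agent.Results.MP_cc703c_co.Four
open Pool.Agent.H.MP_cc703c_co.A

theorem result : ∃ p : Fin 10 → EuclideanSpace ℝ (Fin 4),
    (∀ σ ∈ F, ∀ A ⊆ σ, AffineIndependent ℝ fun v : A => p v) ∧
    ∀ σ ∈ F, ∀ τ ∈ F, ∀ A ⊆ σ, ∀ B ⊆ τ,
      convexHull ℝ (p '' A) ∩ convexHull ℝ (p '' B) = convexHull ℝ (p '' ↑(A ∩ B)) :=
  ⟨p, fun _ h _ s => ind h s, fun _ h _ k _ a _ b => meet h k a b⟩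

end Pool.Agent.Results.MP_cc703c_co.Four
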